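import Pool.Agent.Helper10.MWF.RES
import Pool.Agent.Helper69.MWF.BasicT

/-!
# MP_80e84b_lc (S14965): module BOX
-/

set_option autoImplicit false

open Topology Set Filter
open Nat.Partrec (Code)

namespace Pool.Agent.Helper69.MWF.H10

open Pool.Agent.Helper95.MW

theorem box (hU1 : ST_UNI1) (hU2 : ST_UNI2) (hC : ST_COMP) (hB : ST_BORSW) : ST_BOX := by
  classical
  intro π F G hπ hR
  have hFjn : Measurable (fun p : (ℕ → ℕ) × (ℕ → ℕ) => jn (F p.1) (F p.2)) :=
    cont_jn.measurable.comp ((hR.meas.comp measurable_fst).prodMk (hR.meas.comp measurable_snd))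
  -- the first box
  obtain ⟨c1, s0, g0, N, -, -, -, hbox1⟩ := hU2 Code
    (fun c => {p | segs (F (act p.1 p.2)) = WC c (jn (F p.1) (F p.2))})
    (fun c => (hB c).preimage ((hR.meas.comp cont_act.measurable).prodMk hFjn))
    (by
      filter_upwards [res_fst.eventually hR.res, res_snd.eventually hR.res,
        res_act.eventually hR.res] with p h1 h2 h3
      have h4 : LE (F (act p.1 p.2)) (jn (F p.1) (F p.2)) := by
        refine (hR.te _ h3).1.trans (((hπ.iff _ _).1 (act_le p.1 p.2)).trans
          ((pi_jn hπ _ _).1.trans ?_))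
        exact jn_mono (hR.te _ h1).2 (hR.te _ h2).2
      exact le_iff_WC.1 h4)
    (fun _ => 0) (fun _ => 0) 0
  set g1 : ℕ → ℕ := fun i => if i < N then g0 i else N with hg1
  have hg1N : g1 N = N := by simp [hg1]
  have hg1g0 : g1 ∈ Cy g0 N := fun i hi => by simp [hg1, hi]
  set m := N + 1 with hm
  -- the second box
  obtain ⟨c2, x0, M, hmM, hx0, hbox2⟩ := hU1 Code
    (fun c => {h | segs (F (pre g1 m h)) = WC c (F h)})
    (fun c => (hB c).preimage ((hR.meas.comp (cont_pre g1 m).measurable).prodMk hR.meas))
    (by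
      filter_upwards [hR.res, (res_pre g1 m).eventually hR.res] with h h1 h2
      have h4 : LE (F (pre g1 m h)) (F h) :=
        (hR.te _ h2).1.trans (((hπ.iff _ _).1 (le_pre g1 m h)).trans (hR.te _ h1).2)
      exact le_iff_WC.1 h4)
    (act s0 g1) m
  -- the strings and the labels
  set u : ℕ → ℕ := pre g1 m x0 with hu
  have hug1 : u ∈ Cy g1 m := pre_mem g1 x0 m
  have huN : u N = N := by rw [hug1 N (by omega), hg1N]
  have hux : ∀ i, m ≤ i → u i = x0 i := fun i hi => by
    simp only [hu, pre]
    rw [if_neg (by omega)]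
  have hcode : ∀ k, N < k → N < ec (ini u k) := fun k hk => by
    have := lt_ec_ini (g := u) (i := N) (n := k) hk
    rwa [huN] at this
  set W : Set (ℕ → ℕ) := Cy s0 N ∩ {s | ∀ i < M, s (ec (ini u (i + 1))) = x0 i} with hW
  have hWo : IsOpen W := by
    refine (isOpen_Cy s0 N).inter ?_
    rw [isOpen_iff_mem_nhds]
    intro s hs
    rw [nhds_iff]
    refine ⟨(Finset.range M).sup (fun i => ec (ini u (i + 1)) + 1), fun s' hs' i hi => ?_⟩
    rw [hs' _ (lt_of_lt_of_le (Nat.lt_succ_self _)
      (Finset.le_sup (f := fun i => ec (ini u (i + 1)) + 1) (Finset.mem_range.2 hi)))]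
    exact hs i hi
  obtain ⟨c, hc⟩ := hC c1 c2
  refine ⟨u, M, W, c, hWo, ?_, ?_, ?_⟩
  · -- nonempty
    refine ⟨fun k => if k < N then s0 k else if h : ∃ i, i < M ∧ k = ec (ini u (i + 1)) then
      x0 h.choose else 0, fun k hk => ?_, fun i hi => ?_⟩
    · simp only [hk, if_true]
    · simp only
      by_cases hk : ec (ini u (i + 1)) < N
      · rw [if_pos hk]
        have him : i < m := by
          by_contra hcon
          have := hcode (i + 1) (by omega)
          omega
        rw [hx0 i him]
        unfold act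
        rw [ini_congr_of_Cy hug1 (by omega)]
      · rw [if_neg hk]
        have h : ∃ i', i' < M ∧ ec (ini u (i + 1)) = ec (ini u (i' + 1)) := ⟨i, hi, rfl⟩
        rw [dif_pos h]
        have h2 := congrArg List.length (ec_inj h.choose_spec.2)
        rw [ini_length, ini_length] at h2
        congr 1
        omega
  · -- stability under the involution
    rintro s ⟨hs1, hs2⟩
    have hH : ∀ k, (∀ a, k ≠ ec (ini u M ++ [a])) → Hm u M s k = s k := fun k hk => by
      unfold Hm
      rw [if_neg (hk _)]
    refine ⟨fun k hk => ?_, fun i hi => ?_⟩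
    · rw [hH k, hs1 k hk]
      intro a ha
      have h1 : N ∈ ini u M ++ [a] := by
        refine List.mem_append_left _ ?_
        have := mem_ini (f := u) (s := M) (i := N) (by omega)
        rwa [huN] at this
      have := lt_ec_of_mem h1
      omega
    · rw [hH, hs2 i hi]
      intro a ha
      have h2 := congrArg List.length (ec_inj ha)
      rw [List.length_append, ini_length, ini_length] at h2
      simp at h2
      omega
  · filter_upwards [hbox1, res_act.eventually hbox2] with p h1 h2 hp1 hp2
    have ha : act p.1 p.2 ∈ Cy x0 M := by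
      intro i hi
      unfold act
      rw [ini_congr_of_Cy hp2 (by omega)]
      exact hp1.2 i hi
    have e : alp u M p.1 p.2 = pre g1 m (act p.1 p.2) := by
      funext i
      unfold alp pre
      by_cases hi : i < m
      · rw [if_pos (by omega), if_pos hi, hug1 i hi]
      · rw [if_neg hi]
        by_cases hi2 : i < M
        · rw [if_pos hi2, ha i hi2, hux i (by omega)]
        · rw [if_neg hi2]
    rw [e]
    have h3 := h2 ha
    have h4 : p ∈ {p : (ℕ → ℕ) × (ℕ → ℕ) | segs (F (act p.1 p.2)) =
        WC c1 (jn (F p.1) (F p.2))} := by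
      refine h1 hp1.1 ?_
      refine Cy_trans (Cy_anti (by omega) hp2) ?_
      exact Cy_trans (Cy_anti (by omega) hug1) hg1g0
    exact hc _ _ _ h4 h3

end Pool.Agent.Helper69.MWF.H10
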