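import Pool.Agent.Helper69.MWF.BasicT
import Pool.Agent.Helper69.MWF.Stmts

/-!
# MP_80e84b_lc (S14965): module CL
-/

set_option autoImplicit false

open Topology Set Filter
open Nat.Partrec (Code)

namespace Pool.Agent.Helper69.MWF.H10

open Pool.Agent.Helper95.MW

theorem cl (hPR : ST_PR) : ST_CL := by
  intro π hπ A w hM
  by_contra hA
  obtain ⟨c, d, hwc, hdc, hy⟩ := hPR A w hA
  have h1 : LE (piInv π d) (piInv π c) := by
    refine gen_le'' hM fun h hh => ?_
    refine (le_pi_iff hπ).1 ?_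
    have hc : LE c (π (jn (piInv π c) h)) :=
      (piInv_spec hπ c).2.trans ((hπ.iff _ _).1 (le_jn_left _ _))
    refine (hy _ hh).trans (jn_le (jn_le (hwc.trans hc) ?_) hc)
    exact (hπ.iff _ _).1 (le_jn_right _ _)
  exact hdc ((piInv_iff hπ d c).2 h1)

end Pool.Agent.Helper69.MWF.H10
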