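import Pool.Agent.Helper10.MWF.Top

/-!
# MP_80e84b_lc (S14965): module RES
-/

set_option autoImplicit false

open Topology Set Filter
open Nat.Partrec (Code)

namespace Pool.Agent.Helper69.MWF.H10

open Pool.Agent.Helper95.MW

/-- continuity from finite dependence -/
theorem cont1 {f : (ℕ → ℕ) → (ℕ → ℕ)} (h : ∀ x n, ∃ m, ∀ x' ∈ Cy x m, f x' n = f x n) :
    Continuous f := by
  refine cont_of_coord fun x n => ?_
  obtain ⟨m, hm⟩ := h x n
  exact ⟨Cy x m, (isOpen_Cy x m).mem_nhds (self_mem_Cy x m), hm⟩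

theorem cont2 {f : (ℕ → ℕ) × (ℕ → ℕ) → (ℕ → ℕ)} (h : ∀ p n, ∃ m,
    ∀ p' : (ℕ → ℕ) × (ℕ → ℕ), p'.1 ∈ Cy p.1 m → p'.2 ∈ Cy p.2 m → f p' n = f p n) :
    Continuous f := by
  refine cont_of_coord fun p n => ?_
  obtain ⟨m, hm⟩ := h p n
  refine ⟨Cy p.1 m ×ˢ Cy p.2 m, ?_, fun p' hp' => hm p' hp'.1 hp'.2⟩
  exact ((isOpen_Cy _ m).prod (isOpen_Cy _ m)).mem_nhds ⟨self_mem_Cy _ m, self_mem_Cy _ m⟩

theorem cont_col (i : ℕ) : Continuous (fun x => col x i) :=
  cont1 fun x n => ⟨Nat.pair i n + 1, fun x' hx' => hx' _ (Nat.lt_succ_self _)⟩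

theorem cont_pre (f : ℕ → ℕ) (n : ℕ) : Continuous (fun x => pre f n x) :=
  cont1 fun x k => ⟨k + 1, fun x' hx' => by
    unfold pre
    rw [hx' k (Nat.lt_succ_self _)]⟩

theorem cont_cat (f : ℕ → ℕ) (n : ℕ) : Continuous (fun x => cat f n x) :=
  cont1 fun x k => ⟨k - n + 1, fun x' hx' => by
    unfold cat
    rw [hx' (k - n) (Nat.lt_succ_self _)]⟩

theorem cont_xr : Continuous (fun p : (ℕ → ℕ) × (ℕ → ℕ) => xr p.1 p.2) :=
  cont2 fun p k => ⟨k + 1, fun p' h1 h2 => by
    unfold xr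
    rw [h1 k (Nat.lt_succ_self _), h2 k (Nat.lt_succ_self _)]⟩

theorem cont_jn : Continuous (fun p : (ℕ → ℕ) × (ℕ → ℕ) => jn p.1 p.2) :=
  cont2 fun p k => ⟨k + 1, fun p' h1 h2 => by
    unfold jn
    rw [h1 k (Nat.lt_succ_self _), h2 k (Nat.lt_succ_self _)]⟩

theorem cont_comp (e : ℕ → ℕ) : Continuous (fun x : ℕ → ℕ => e ∘ x) :=
  cont1 fun x k => ⟨k + 1, fun x' hx' => by
    simp only [Function.comp_apply]
    rw [hx' k (Nat.lt_succ_self _)]⟩

theorem cont_act : Continuous (fun p : (ℕ → ℕ) × (ℕ → ℕ) => act p.1 p.2) :=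
  cont2 fun p k => ⟨max (k + 1) (ec (ini p.2 (k + 1)) + 1), fun p' h1 h2 => by
    unfold act
    rw [ini_congr_of_Cy h2 (le_max_left _ _)]
    exact h1 _ (lt_of_lt_of_le (Nat.lt_succ_self _) (le_max_right _ _))⟩

theorem xr_xr (x y : ℕ → ℕ) : xr (xr x y) y = x := by
  funext n
  simp [xr]

/-- the shift -/
def shf (n : ℕ) (x : ℕ → ℕ) : ℕ → ℕ := fun i => x (i + n)

theorem cat_shf {f x : ℕ → ℕ} {n : ℕ} (h : x ∈ Cy f n) : cat f n (shf n x) = x := by
  funext i
  unfold cat shf
  by_cases hi : i < n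
  · rw [if_pos hi, h i hi]
  · rw [if_neg hi, Nat.sub_add_cancel (not_lt.1 hi)]

theorem cat_mem (f x : ℕ → ℕ) (n : ℕ) : cat f n x ∈ Cy f n := fun i hi => by
  unfold cat
  rw [if_pos hi]

theorem pre_mem (f x : ℕ → ℕ) (n : ℕ) : pre f n x ∈ Cy f n := fun i hi => by
  unfold pre
  rw [if_pos hi]

theorem res_col (i : ℕ) : Tendsto (fun x => col x i) (residual (ℕ → ℕ)) (residual (ℕ → ℕ)) := by
  refine tendsto_res (cont_col i) fun O _ hO => ?_
  rw [dense_iff_cy]
  intro x n
  obtain ⟨z, hz, hz2⟩ := dense_iff_cy.1 hO (col x i) n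
  refine ⟨fun m => if m.unpair.1 = i then z m.unpair.2 else x m, ?_, ?_⟩
  · have : col (fun m => if m.unpair.1 = i then z m.unpair.2 else x m) i = z := by
      funext k
      simp [col]
    rw [mem_preimage, this]
    exact hz
  · intro m hm
    by_cases h : m.unpair.1 = i
    · simp only [h, if_true]
      have h1 : m.unpair.2 < n := lt_of_le_of_lt (Nat.unpair_right_le m) hm
      rw [hz2 _ h1]
      unfold col
      rw [← h, Nat.pair_unpair]
    · simp only [h, if_false]

theorem res_xr (z : ℕ → ℕ) : Tendsto (fun x => xr x z) (residual (ℕ → ℕ)) (residual (ℕ → ℕ)) := by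
  refine tendsto_res (cont_xr.comp (continuous_id.prodMk continuous_const)) fun O _ hO => ?_
  rw [dense_iff_cy]
  intro x n
  obtain ⟨y, hy, hy2⟩ := dense_iff_cy.1 hO (xr x z) n
  refine ⟨xr y z, ?_, ?_⟩
  · rw [mem_preimage, xr_xr]
    exact hy
  · intro i hi
    have : xr y z i = xr (xr x z) z i := by
      unfold xr
      rw [hy2 i hi]
      rfl
    rw [this, xr_xr]

theorem res_pre (f : ℕ → ℕ) (n : ℕ) :
    Tendsto (fun x => pre f n x) (residual (ℕ → ℕ)) (residual (ℕ → ℕ)) := by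
  refine tendsto_res (cont_pre f n) fun O _ hO => ?_
  rw [dense_iff_cy]
  intro x k
  obtain ⟨y, hy, hy2⟩ := dense_iff_cy.1 hO (pre f n x) (max k n)
  have h1 : y ∈ Cy f n := Cy_trans (Cy_anti (le_max_right _ _) hy2) (pre_mem f x n)
  refine ⟨fun i => if i < n then x i else y i, ?_, ?_⟩
  · have : pre f n (fun i => if i < n then x i else y i) = y := by
      funext i
      unfold pre
      by_cases hi : i < n
      · rw [if_pos hi, h1 i hi]
      · simp only [hi, if_false]
    rw [mem_preimage, this]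
    exact hy
  · intro i hi
    by_cases hn : i < n
    · simp only [hn, if_true]
    · simp only [hn, if_false]
      rw [hy2 i (lt_of_lt_of_le hi (le_max_left _ _))]
      unfold pre
      rw [if_neg hn]

theorem res_cat (f : ℕ → ℕ) (n : ℕ) :
    Tendsto (fun x => cat f n x) (residual (ℕ → ℕ)) (residual (ℕ → ℕ)) := by
  refine tendsto_res (cont_cat f n) fun O _ hO => ?_
  rw [dense_iff_cy]
  intro x k
  obtain ⟨y, hy, hy2⟩ := dense_iff_cy.1 hO (cat f n x) (k + n)
  have h1 : y ∈ Cy f n := Cy_trans (Cy_anti (Nat.le_add_left _ _) hy2) (cat_mem f x n)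
  refine ⟨shf n y, ?_, ?_⟩
  · rw [mem_preimage, cat_shf h1]
    exact hy
  · intro i hi
    unfold shf
    rw [hy2 (i + n) (by omega)]
    unfold cat
    rw [if_neg (by omega), Nat.add_sub_cancel]

theorem res_shf (n : ℕ) :
    Tendsto (fun x => shf n x) (residual (ℕ → ℕ)) (residual (ℕ → ℕ)) := by
  refine tendsto_res (cont1 fun x k => ⟨k + n + 1, fun x' hx' => hx' _ (Nat.lt_succ_self _)⟩)
    fun O _ hO => ?_
  rw [dense_iff_cy]
  intro x k
  obtain ⟨y, hy, hy2⟩ := dense_iff_cy.1 hO (shf n x) k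
  refine ⟨cat x n y, ?_, ?_⟩
  · have : shf n (cat x n y) = y := by
      funext i
      unfold shf cat
      rw [if_neg (by omega), Nat.add_sub_cancel]
    rw [mem_preimage, this]
    exact hy
  · intro i hi
    unfold cat
    by_cases h : i < n
    · rw [if_pos h]
    · rw [if_neg h, hy2 (i - n) (by omega)]
      unfold shf
      rw [Nat.sub_add_cancel (not_lt.1 h)]

theorem res_jn : Tendsto (fun p : (ℕ → ℕ) × (ℕ → ℕ) => jn p.1 p.2) (residual _)
    (residual (ℕ → ℕ)) := by
  refine tendsto_res cont_jn fun O _ hO => ?_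
  rw [dense_iff_cy2]
  intro x x' n
  obtain ⟨y, hy, hy2⟩ := dense_iff_cy.1 hO (jn x x') n
  refine ⟨(fun i => (y i).unpair.1, fun i => (y i).unpair.2), ?_, ?_, ?_⟩
  · have : jn (fun i => (y i).unpair.1) (fun i => (y i).unpair.2) = y := by
      funext i
      simp [jn]
    rw [mem_preimage, this]
    exact hy
  · intro i hi
    simp only [hy2 i hi, jn, Nat.unpair_pair]
  · intro i hi
    simp only [hy2 i hi, jn, Nat.unpair_pair]

/-- the inverse of the join -/
def unj (x : ℕ → ℕ) : (ℕ → ℕ) × (ℕ → ℕ) := (fun i => (x i).unpair.1, fun i => (x i).unpair.2)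

theorem jn_unj (x : ℕ → ℕ) : jn (unj x).1 (unj x).2 = x := by
  funext i
  simp [jn, unj]

theorem res_unj : Tendsto unj (residual (ℕ → ℕ)) (residual _) := by
  refine tendsto_res ?_ fun O hO1 hO => ?_
  · refine Continuous.prodMk (cont1 fun x k => ⟨k + 1, fun x' hx' => ?_⟩)
      (cont1 fun x k => ⟨k + 1, fun x' hx' => ?_⟩)
    · rw [hx' k (Nat.lt_succ_self _)]
    · rw [hx' k (Nat.lt_succ_self _)]
  · rw [dense_iff_cy]
    intro x n
    obtain ⟨p, hp, h1, h2⟩ := dense_iff_cy2.1 hO (unj x).1 (unj x).2 n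
    refine ⟨jn p.1 p.2, ?_, ?_⟩
    · have : unj (jn p.1 p.2) = p := by
        refine Prod.ext ?_ ?_
        · funext i
          simp [unj, jn]
        · funext i
          simp [unj, jn]
      rw [mem_preimage, this]
      exact hp
    · intro i hi
      unfold jn
      rw [h1 i hi, h2 i hi]
      simp [unj]

theorem res_fst : Tendsto (fun p : (ℕ → ℕ) × (ℕ → ℕ) => p.1) (residual _)
    (residual (ℕ → ℕ)) := by
  refine tendsto_res continuous_fst fun O _ hO => ?_
  rw [dense_iff_cy2]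
  intro x x' n
  obtain ⟨y, hy, hy2⟩ := dense_iff_cy.1 hO x n
  exact ⟨(y, x'), hy, hy2, self_mem_Cy _ _⟩

theorem res_snd : Tendsto (fun p : (ℕ → ℕ) × (ℕ → ℕ) => p.2) (residual _)
    (residual (ℕ → ℕ)) := by
  refine tendsto_res continuous_snd fun O _ hO => ?_
  rw [dense_iff_cy2]
  intro x x' n
  obtain ⟨y, hy, hy2⟩ := dense_iff_cy.1 hO x' n
  exact ⟨(x, y), hy, self_mem_Cy _ _, hy2⟩

theorem res_xre (e : ℕ → ℕ) : Tendsto (fun p : (ℕ → ℕ) × (ℕ → ℕ) => xr p.1 (e ∘ p.2))
    (residual _) (residual (ℕ → ℕ)) := by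
  refine tendsto_res (cont_xr.comp (continuous_fst.prodMk ((cont_comp e).comp continuous_snd)))
    fun O _ hO => ?_
  rw [dense_iff_cy2]
  intro x x' n
  obtain ⟨y, hy, hy2⟩ := dense_iff_cy.1 hO (xr x (e ∘ x')) n
  refine ⟨(xr y (e ∘ x'), x'), ?_, ?_, self_mem_Cy _ _⟩
  · rw [mem_preimage]
    simp only
    rw [xr_xr]
    exact hy
  · intro i hi
    have : xr y (e ∘ x') i = xr (xr x (e ∘ x')) (e ∘ x') i := by
      unfold xr
      rw [hy2 i hi]
      rfl
    simp only
    rw [this, xr_xr]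

theorem res_act : Tendsto (fun p : (ℕ → ℕ) × (ℕ → ℕ) => act p.1 p.2) (residual _)
    (residual (ℕ → ℕ)) := by
  classical
  refine tendsto_res cont_act fun O _ hO => ?_
  rw [dense_iff_cy2]
  intro s g n
  obtain ⟨y, hy, hy2⟩ := dense_iff_cy.1 hO (act s g) n
  set g1 : ℕ → ℕ := fun i => if i < n then g i else n with hg1
  have hini : ∀ k, k ≤ n → ini g1 k = ini g k := by
    intro k hk
    refine ini_eq_of_agree fun i hi => ?_
    simp only [hg1]
    rw [if_pos (by omega)]
  set s1 : ℕ → ℕ := fun m => if h : ∃ k, n ≤ k ∧ m = ec (ini g1 (k + 1)) then y h.choose else s m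
    with hs1
  have hs1a : ∀ k, n ≤ k → s1 (ec (ini g1 (k + 1))) = y k := by
    intro k hk
    have h : ∃ k', n ≤ k' ∧ ec (ini g1 (k + 1)) = ec (ini g1 (k' + 1)) := ⟨k, hk, rfl⟩
    simp only [hs1]
    rw [dif_pos h]
    have h2 := congrArg List.length (ec_inj h.choose_spec.2)
    rw [ini_length, ini_length] at h2
    congr 1
    omega
  have hs1b : ∀ m, (∀ k, n ≤ k → m ≠ ec (ini g1 (k + 1))) → s1 m = s m := by
    intro m hm
    simp only [hs1]
    rw [dif_neg]
    rintro ⟨k, h1, h2⟩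
    exact hm k h1 h2
  refine ⟨(s1, g1), ?_, ?_, ?_⟩
  · have : act s1 g1 = y := by
      funext k
      unfold act
      by_cases hk : n ≤ k
      · exact hs1a k hk
      · rw [hs1b, hini (k + 1) (by omega), hy2 k (by omega)]
        · rfl
        · intro k' hk' h
          have h2 := congrArg List.length (ec_inj h)
          rw [ini_length, ini_length] at h2
          omega
    rw [mem_preimage]
    simp only
    rw [this]
    exact hy
  · intro m hm
    refine hs1b m fun k hk h => ?_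
    have h1 : g1 n ∈ ini g1 (k + 1) := mem_ini (by omega)
    have h2 := lt_ec h1
    have h3 : g1 n = n := by simp [hg1]
    omega
  · intro m hm
    simp only [hg1]
    rw [if_pos hm]

theorem res : ST_RES := by
  refine ⟨res_col, res_xr, res_pre, ?_, ?_, res_fst, res_snd, res_xre, res_act⟩
  · intro f n P
    constructor
    · intro h
      filter_upwards [(res_cat f n).eventually h] with y hy
      exact hy (cat_mem f y n)
    · intro h
      filter_upwards [(res_shf n).eventually h] with x hx hxn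
      rwa [cat_shf hxn] at hx
  · intro P
    constructor
    · intro h
      exact res_jn.eventually h
    · intro h
      have := res_unj.eventually h
      filter_upwards [this] with x hx
      rwa [jn_unj] at hx

end Pool.Agent.Helper69.MWF.H10
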