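import Pool.Agent.Helper69.MWF.Stmts

/-!
# MP_80e84b_lc (S14965): topology of the Baire space in terms of cylinders
-/

set_option autoImplicit false

open Topology Set Filter
open Nat.Partrec (Code)

namespace Pool.Agent.Helper69.MWF.H10

open Pool.Agent.Helper95.MW

theorem isOpen_Cy (f : ℕ → ℕ) (n : ℕ) : IsOpen (Cy f n) :=
  PiNat.isOpen_cylinder (fun _ => ℕ) f n

theorem self_mem_Cy (f : ℕ → ℕ) (n : ℕ) : f ∈ Cy f n := fun _ _ => rfl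

theorem Cy_anti {f x : ℕ → ℕ} {m n : ℕ} (h : m ≤ n) (hx : x ∈ Cy f n) : x ∈ Cy f m :=
  fun i hi => hx i (lt_of_lt_of_le hi h)

theorem Cy_trans {f g h : ℕ → ℕ} {n : ℕ} (h1 : f ∈ Cy g n) (h2 : g ∈ Cy h n) : f ∈ Cy h n :=
  fun i hi => (h1 i hi).trans (h2 i hi)

theorem Cy_symm {f g : ℕ → ℕ} {n : ℕ} (h1 : f ∈ Cy g n) : g ∈ Cy f n :=
  fun i hi => (h1 i hi).symm

theorem exists_Cy {O : Set (ℕ → ℕ)} (hO : IsOpen O) {x : ℕ → ℕ} (hx : x ∈ O) :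
    ∃ n, Cy x n ⊆ O := by
  obtain ⟨s, ⟨y, n, rfl⟩, h1, h2⟩ :=
    (PiNat.isTopologicalBasis_cylinders (fun _ => ℕ)).exists_subset_of_mem_open hx hO
  refine ⟨n, ?_⟩
  have h3 := PiNat.mem_cylinder_iff_eq.1 h1
  intro z hz
  apply h2
  rw [← h3]
  exact hz

theorem nhds_iff {x : ℕ → ℕ} {s : Set (ℕ → ℕ)} : s ∈ 𝓝 x ↔ ∃ n, Cy x n ⊆ s := by
  constructor
  · intro h
    obtain ⟨O, h1, h2, h3⟩ := mem_nhds_iff.1 h
    obtain ⟨n, hn⟩ := exists_Cy h2 h3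
    exact ⟨n, hn.trans h1⟩
  · rintro ⟨n, hn⟩
    exact mem_of_superset ((isOpen_Cy x n).mem_nhds (self_mem_Cy x n)) hn

theorem dense_iff_cy {O : Set (ℕ → ℕ)} : Dense O ↔ ∀ x n, ∃ y ∈ O, y ∈ Cy x n := by
  constructor
  · intro h x n
    obtain ⟨y, h1, h2⟩ := h.inter_open_nonempty _ (isOpen_Cy x n) ⟨x, self_mem_Cy x n⟩
    exact ⟨y, h2, h1⟩
  · intro h
    rw [dense_iff_inter_open]
    rintro U hU ⟨x, hx⟩
    obtain ⟨n, hn⟩ := exists_Cy hU hx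
    obtain ⟨y, h1, h2⟩ := h x n
    exact ⟨y, hn h2, h1⟩

theorem exists_Cy2 {O : Set ((ℕ → ℕ) × (ℕ → ℕ))} (hO : IsOpen O) {x : (ℕ → ℕ) × (ℕ → ℕ)}
    (hx : x ∈ O) : ∃ n, ∀ p : (ℕ → ℕ) × (ℕ → ℕ), p.1 ∈ Cy x.1 n → p.2 ∈ Cy x.2 n → p ∈ O := by
  obtain ⟨U, V, hU, hV, h1, h2, h3⟩ := isOpen_prod_iff.1 hO x.1 x.2 hx
  obtain ⟨n1, hn1⟩ := exists_Cy hU h1
  obtain ⟨n2, hn2⟩ := exists_Cy hV h2
  refine ⟨max n1 n2, fun p hp1 hp2 => h3 ⟨hn1 (Cy_anti (le_max_left _ _) hp1),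
    hn2 (Cy_anti (le_max_right _ _) hp2)⟩⟩

theorem dense_iff_cy2 {O : Set ((ℕ → ℕ) × (ℕ → ℕ))} :
    Dense O ↔ ∀ x x' n, ∃ p ∈ O, p.1 ∈ Cy x n ∧ p.2 ∈ Cy x' n := by
  constructor
  · intro h x x' n
    obtain ⟨y, h1, h2⟩ := h.inter_open_nonempty _ ((isOpen_Cy x n).prod (isOpen_Cy x' n))
      ⟨(x, x'), self_mem_Cy x n, self_mem_Cy x' n⟩
    exact ⟨y, h2, h1.1, h1.2⟩
  · intro h
    rw [dense_iff_inter_open]
    rintro U hU ⟨x, hx⟩
    obtain ⟨n, hn⟩ := exists_Cy2 hU hx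
    obtain ⟨p, h1, h2, h3⟩ := h x.1 x.2 n
    exact ⟨p, hn p h2 h3, h1⟩

theorem tendsto_res {X Y : Type*} [TopologicalSpace X] [TopologicalSpace Y] {f : X → Y}
    (hf : Continuous f) (h : ∀ O : Set Y, IsOpen O → Dense O → Dense (f ⁻¹' O)) :
    Tendsto f (residual X) (residual Y) := by
  intro s hs
  obtain ⟨S, h1, h2, h3, h4⟩ := mem_residual_iff.1 hs
  rw [mem_map, mem_residual_iff]
  refine ⟨(fun t => f ⁻¹' t) '' S, ?_, ?_, h3.image _, ?_⟩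
  · rintro _ ⟨t, ht, rfl⟩
    exact (h1 t ht).preimage hf
  · rintro _ ⟨t, ht, rfl⟩
    exact h t (h1 t ht) (h2 t ht)
  · intro x hx
    refine h4 ?_
    intro t ht
    exact hx _ ⟨t, ht, rfl⟩

/-- continuity of maps of the Baire space, coordinatewise -/
theorem cont_of_coord {X : Type*} [TopologicalSpace X] {f : X → (ℕ → ℕ)}
    (h : ∀ x n, ∃ U ∈ 𝓝 x, ∀ x' ∈ U, f x' n = f x n) : Continuous f := by
  refine continuous_pi fun n => ?_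
  rw [continuous_iff_continuousAt]
  intro x
  obtain ⟨U, hU, h1⟩ := h x n
  refine Tendsto.congr' (f₁ := fun _ => f x n) ?_ tendsto_const_nhds
  filter_upwards [hU] with x' hx'
  exact (h1 x' hx').symm

theorem Sm_meagre {X : Set (ℕ → ℕ)} (h : Sm X) : IsMeagre X := by
  obtain ⟨S, h1, h2, h3⟩ := h
  rw [isMeagre_iff_countable_union_isNowhereDense]
  refine ⟨S, ?_, h1, h3⟩
  intro N hN
  have h4 := h2 N hN
  rw [IsNowhereDense, eq_empty_iff_forall_notMem]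
  intro y hy
  obtain ⟨s, hs⟩ := exists_Cy isOpen_interior hy
  obtain ⟨y', s', h5, h6, h7⟩ := h4 y s
  have h8 : y' ∈ closure N := interior_subset (hs (fun i hi => agree_of_ini_eq h6 i hi))
  obtain ⟨x, hx1, hx2⟩ := mem_closure_iff.1 h8 _ (isOpen_Cy y' s') (self_mem_Cy y' s')
  exact h7 x hx2 (ini_eq_of_agree hx1)

/-- the code of a string bounds its entries -/
theorem lt_ec {l : List ℕ} {k : ℕ} (h : k ∈ l) : k < ec l := by
  induction l with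
  | nil => simp at h
  | cons a l ih =>
    have e : ec (a :: l) = Nat.succ (Nat.pair a (ec l)) := rfl
    rw [e, Nat.lt_succ_iff]
    rcases List.mem_cons.1 h with rfl | h
    · exact Nat.left_le_pair _ _
    · exact (ih h).le.trans (Nat.right_le_pair _ _)

theorem ec_inj {l m : List ℕ} (h : ec l = ec m) : l = m := by
  have := congrArg dl h
  rwa [dl_ec, dl_ec] at this

theorem mem_ini {f : ℕ → ℕ} {s i : ℕ} (h : i < s) : f i ∈ ini f s := by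
  unfold ini
  exact List.mem_map.2 ⟨i, List.mem_range.2 h, rfl⟩

theorem ini_congr_of_Cy {f g : ℕ → ℕ} {n s : ℕ} (h : f ∈ Cy g n) (hs : s ≤ n) :
    ini f s = ini g s :=
  ini_eq_of_agree fun i hi => h i (lt_of_lt_of_le hi hs)

end Pool.Agent.Helper69.MWF.H10
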